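import Mathlib
import Pool.Agent.Hhelper97.Sph.Defs

/-!
# The Barnes G-function and the asymptotics of `Z n a * Z n (-a)`
-/

open Filter Topology

namespace Sph

/-- `1/(k+1)^2`, shifted sums. -/
noncomputable def qq (n : ℕ) : ℝ := ∑' k : ℕ, 1 / ((k : ℝ) + n + 1) ^ 2

theorem hasSum_tele (n : ℕ) (hn : 0 < n) :
    HasSum (fun k : ℕ => 1 / ((k : ℝ) + n) - 1 / ((k : ℝ) + n + 1)) (1 / (n : ℝ)) := by
  have h0 : (0 : ℝ) < n := by exact_mod_cast hn
  rw [hasSum_iff_tendsto_nat_of_nonneg]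
  · have h1 : ∀ m : ℕ, ∑ k ∈ Finset.range m, (1 / ((k : ℝ) + n) - 1 / ((k : ℝ) + n + 1)) =
        1 / (n : ℝ) - 1 / ((m : ℝ) + n) := by
      intro m
      induction m with
      | zero => simp
      | succ m ih =>
        rw [Finset.sum_range_succ, ih]
        push_cast
        ring
    simp_rw [h1]
    have h2 : Tendsto (fun m : ℕ => 1 / ((m : ℝ) + n)) atTop (𝓝 0) := by
      have h3 : Tendsto (fun m : ℕ => (m : ℝ) + n) atTop atTop :=
        tendsto_atTop_add_const_right _ _ tendsto_natCast_atTop_atTop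
      simp_rw [one_div]
      exact h3.inv_tendsto_atTop
    simpa using (tendsto_const_nhds (x := 1 / (n : ℝ))).sub h2
  · intro k
    have : (0 : ℝ) < (k : ℝ) + n := by positivity
    rw [sub_nonneg]
    apply one_div_le_one_div_of_le this
    linarith

theorem summable_qq (n : ℕ) : Summable fun k : ℕ => 1 / ((k : ℝ) + n + 1) ^ 2 := by
  have h : Summable fun k : ℕ => 1 / (((k + (n + 1) : ℕ) : ℝ)) ^ 2 :=
    (summable_nat_add_iff (n + 1)).2 (Real.summable_one_div_nat_pow.2 (by norm_num))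
  refine h.congr fun k => ?_
  push_cast
  ring_nf

theorem qq_le (n : ℕ) (hn : 0 < n) : qq n ≤ 1 / n := by
  have h0 : (0 : ℝ) < n := by exact_mod_cast hn
  rw [← (hasSum_tele n hn).tsum_eq]
  refine (summable_qq n).tsum_le_tsum (fun k => ?_) (hasSum_tele n hn).summable
  have h1 : (0 : ℝ) < (k : ℝ) + n := by positivity
  rw [div_sub_div _ _ h1.ne' (by positivity), div_le_div_iff₀ (by positivity) (by positivity)]
  nlinarith

theorem le_qq (n : ℕ) : 1 / ((n : ℝ) + 1) ≤ qq n := by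
  have h := hasSum_tele (n + 1) (Nat.succ_pos n)
  push_cast at h
  rw [← h.tsum_eq]
  refine h.summable.tsum_le_tsum (fun k => ?_) (summable_qq n)
  have h1 : (0 : ℝ) < (k : ℝ) + n + 1 := by positivity
  rw [div_sub_div _ _ (by positivity) (by positivity),
    div_le_div_iff₀ (by positivity) (by positivity)]
  nlinarith

/-- The logarithm of the `i`-th factor of the sine product. -/
noncomputable def ell (a : ℂ) (i : ℕ) : ℂ := Complex.log (1 - a ^ 2 / ((i : ℂ) + 1) ^ 2)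

theorem factor_ne_zero {a : ℂ} (ha : |a.re| < 1) (i : ℕ) : 1 - a ^ 2 / ((i : ℂ) + 1) ^ 2 ≠ 0 := by
  have hi : ((i : ℂ) + 1) ≠ 0 := by exact_mod_cast Nat.succ_ne_zero i
  intro h
  have h1 : (a - (i + 1)) * (a + (i + 1)) = 0 := by
    have h2 : 1 - a ^ 2 / ((i : ℂ) + 1) ^ 2 = -((a - (i + 1)) * (a + (i + 1))) / ((i : ℂ) + 1) ^ 2 := by
      field_simp
      ring
    rw [h2] at h
    have h3 := (div_eq_zero_iff.1 h).resolve_right (pow_ne_zero 2 hi)
    exact neg_eq_zero.1 h3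
  have hi0 : (0 : ℝ) ≤ i := i.cast_nonneg
  rcases mul_eq_zero.1 h1 with h2 | h2
  · have h3 := congrArg Complex.re h2
    simp at h3
    rw [abs_lt] at ha
    linarith
  · have h3 := congrArg Complex.re h2
    simp at h3
    rw [abs_lt] at ha
    linarith

/-- The error terms. -/
noncomputable def ee (a : ℂ) (i : ℕ) : ℂ := ell a i + a ^ 2 / ((i : ℂ) + 1) ^ 2

theorem norm_ee_le {a : ℂ} {R : ℝ} (ha : ‖a‖ ≤ R) {i : ℕ} (hi : 2 * R ^ 2 ≤ ((i : ℝ) + 1) ^ 2) :
    ‖ee a i‖ ≤ R ^ 4 / ((i : ℝ) + 1) ^ 4 := by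
  have hR : 0 ≤ R := (norm_nonneg a).trans ha
  have hi0 : (0 : ℝ) < (i : ℝ) + 1 := by positivity
  have hn : ‖-(a ^ 2 / ((i : ℂ) + 1) ^ 2)‖ ≤ R ^ 2 / ((i : ℝ) + 1) ^ 2 := by
    rw [norm_neg, norm_div, norm_pow, norm_pow]
    have : ‖(i : ℂ) + 1‖ = (i : ℝ) + 1 := by
      have : ((i : ℂ) + 1) = (((i : ℝ) + 1 : ℝ) : ℂ) := by push_cast; rfl
      rw [this, Complex.norm_real, Real.norm_eq_abs, abs_of_pos hi0]
    rw [this]
    gcongr
  have hhalf : R ^ 2 / ((i : ℝ) + 1) ^ 2 ≤ 1 / 2 := by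
    rw [div_le_div_iff₀ (by positivity) (by norm_num)]
    linarith
  have hlt : ‖-(a ^ 2 / ((i : ℂ) + 1) ^ 2)‖ < 1 := by linarith
  have h := Complex.norm_log_one_add_sub_self_le hlt
  have he : ee a i = Complex.log (1 + -(a ^ 2 / ((i : ℂ) + 1) ^ 2)) -
      -(a ^ 2 / ((i : ℂ) + 1) ^ 2) := by
    rw [ee, ell, sub_neg_eq_add, ← sub_eq_add_neg]
  rw [he]
  refine h.trans ?_
  set t : ℝ := ‖-(a ^ 2 / ((i : ℂ) + 1) ^ 2)‖ with ht
  have ht0 : 0 ≤ t := norm_nonneg _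
  have h1 : (1 - t)⁻¹ ≤ 2 := by
    rw [inv_le_comm₀ (by linarith) (by norm_num)]
    linarith
  calc t ^ 2 * (1 - t)⁻¹ / 2 ≤ t ^ 2 * 2 / 2 := by gcongr
    _ = t ^ 2 := by ring
    _ ≤ (R ^ 2 / ((i : ℝ) + 1) ^ 2) ^ 2 := by gcongr
    _ = _ := by rw [div_pow]; ring

theorem summable_ee (a : ℂ) : Summable (ee a) := by
  have h1 : Summable fun i : ℕ => ‖a‖ ^ 4 / ((i : ℝ) + 1) ^ 4 := by
    have h : Summable fun k : ℕ => 1 / (((k + 1 : ℕ) : ℝ)) ^ 4 :=
      (summable_nat_add_iff 1).2 (Real.summable_one_div_nat_pow.2 (by norm_num))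
    refine (h.mul_left (‖a‖ ^ 4)).congr fun k => ?_
    push_cast
    ring
  obtain ⟨m, hm⟩ := exists_nat_ge (2 * ‖a‖ ^ 2)
  refine Summable.of_norm_bounded_eventually_nat h1 ?_
  filter_upwards [eventually_ge_atTop m] with i hi
  refine norm_ee_le le_rfl ?_
  have h2 : (m : ℝ) ≤ i := by exact_mod_cast hi
  have h3 : (0 : ℝ) ≤ i := i.cast_nonneg
  nlinarith

theorem summable_sq (a : ℂ) : Summable fun i : ℕ => a ^ 2 / ((i : ℂ) + 1) ^ 2 := by
  have h : Summable fun k : ℕ => 1 / (((k + 1 : ℕ) : ℝ)) ^ 2 :=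
      (summable_nat_add_iff 1).2 (Real.summable_one_div_nat_pow.2 (by norm_num))
  refine Summable.of_norm ?_
  refine (h.mul_left (‖a‖ ^ 2)).congr fun k => ?_
  have : ‖(k : ℂ) + 1‖ = (k : ℝ) + 1 := by
    have : ((k : ℂ) + 1) = (((k : ℝ) + 1 : ℝ) : ℂ) := by push_cast; rfl
    rw [this, Complex.norm_real, Real.norm_eq_abs, abs_of_pos (by positivity)]
  rw [norm_div, norm_pow, norm_pow, this]
  push_cast
  ring

theorem summable_ell (a : ℂ) : Summable (ell a) := by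
  have h := (summable_ee a).sub (summable_sq a)
  refine h.congr fun i => ?_
  rw [ee]; ring

/-- `Γ(j+1+a) Γ(j+1-a) / Γ(j+1)^2`. -/
noncomputable def gg (a : ℂ) (j : ℕ) : ℂ :=
  Complex.Gamma (j + 1 + a) / Complex.Gamma (j + 1) *
    (Complex.Gamma (j + 1 + -a) / Complex.Gamma (j + 1))

theorem Gamma_nat_ne (j : ℕ) : Complex.Gamma ((j : ℂ) + 1) ≠ 0 :=
  Complex.Gamma_ne_zero_of_re_pos (by
    simp only [Complex.add_re, Complex.natCast_re, Complex.one_re]; positivity)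

theorem gg_succ {a : ℂ} (ha : |a.re| < 1) (j : ℕ) :
    gg a (j + 1) = gg a j * (1 - a ^ 2 / ((j : ℂ) + 1) ^ 2) := by
  have hj : ((j : ℂ) + 1) ≠ 0 := by exact_mod_cast Nat.succ_ne_zero j
  have hj0 : (0 : ℝ) ≤ j := j.cast_nonneg
  rw [abs_lt] at ha
  have h1 : (j : ℂ) + 1 + a ≠ 0 := by
    intro h
    have := congrArg Complex.re h
    simp at this
    linarith
  have h2 : (j : ℂ) + 1 + -a ≠ 0 := by
    intro h
    have := congrArg Complex.re h
    simp at this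
    linarith
  have e1 : Complex.Gamma (((j + 1 : ℕ) : ℂ) + 1 + a) =
      ((j : ℂ) + 1 + a) * Complex.Gamma ((j : ℂ) + 1 + a) := by
    rw [← Complex.Gamma_add_one _ h1]; push_cast; ring_nf
  have e2 : Complex.Gamma (((j + 1 : ℕ) : ℂ) + 1 + -a) =
      ((j : ℂ) + 1 + -a) * Complex.Gamma ((j : ℂ) + 1 + -a) := by
    rw [← Complex.Gamma_add_one _ h2]; push_cast; ring_nf
  have e3 : Complex.Gamma (((j + 1 : ℕ) : ℂ) + 1) =
      ((j : ℂ) + 1) * Complex.Gamma ((j : ℂ) + 1) := by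
    rw [← Complex.Gamma_add_one _ hj]; push_cast; ring_nf
  rw [gg, gg, e1, e2, e3]
  have hG := Gamma_nat_ne j
  field_simp
  ring

theorem gg_eq_prod {a : ℂ} (ha : |a.re| < 1) (j : ℕ) :
    gg a j = gg a 0 * ∏ i ∈ Finset.range j, (1 - a ^ 2 / ((i : ℂ) + 1) ^ 2) := by
  induction j with
  | zero => simp
  | succ j ih => rw [gg_succ ha, ih, Finset.prod_range_succ, mul_assoc]

theorem gg_zero_mul {a : ℂ} (ha0 : a ≠ 0) (ha : |a.re| < 1) :
    gg a 0 * Complex.sin (Real.pi * a) = Real.pi * a := by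
  have h := Complex.Gamma_mul_Gamma_one_sub a
  have h1 : Complex.Gamma (1 + a) = a * Complex.Gamma a := by
    rw [add_comm, Complex.Gamma_add_one a ha0]
  have hsin : Complex.sin (Real.pi * a) ≠ 0 := by
    intro h0
    rw [Complex.sin_eq_zero_iff] at h0
    obtain ⟨k, hk⟩ := h0
    have hpi : (Real.pi : ℂ) ≠ 0 := by exact_mod_cast Real.pi_ne_zero
    have hak : a = k := by
      apply mul_left_cancel₀ hpi
      rw [hk]; ring
    have hre := congrArg Complex.re hak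
    simp at hre
    rw [hre] at ha
    have hk0 : k = 0 := by
      have : |k| < 1 := by exact_mod_cast ha
      exact Int.abs_lt_one_iff.1 this
    apply ha0
    rw [hak, hk0]; simp
  simp only [gg, Nat.cast_zero, zero_add, Complex.Gamma_one, div_one]
  rw [h1]
  have h2 : Complex.Gamma (1 + -a) = Complex.Gamma (1 - a) := by ring_nf
  rw [h2, mul_assoc a, h, mul_assoc, div_mul_cancel₀ _ hsin, mul_comm]

theorem gg_zero_ne {a : ℂ} (ha : |a.re| < 1) : gg a 0 ≠ 0 := by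
  rw [abs_lt] at ha
  simp only [gg, Nat.cast_zero, zero_add, Complex.Gamma_one, div_one]
  refine mul_ne_zero (Complex.Gamma_ne_zero_of_re_pos ?_) (Complex.Gamma_ne_zero_of_re_pos ?_)
  · simp; linarith
  · simp; linarith

theorem exp_tsum_ell {a : ℂ} (ha : |a.re| < 1) :
    gg a 0 * Complex.exp (∑' i, ell a i) = 1 := by
  have hprod : HasProd (fun i : ℕ => 1 - a ^ 2 / ((i : ℂ) + 1) ^ 2)
      (Complex.exp (∑' i, ell a i)) := by
    have h := (summable_ell a).hasSum.cexp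
    have h2 : (Complex.exp ∘ ell a) = fun i : ℕ => 1 - a ^ 2 / ((i : ℂ) + 1) ^ 2 := by
      funext i
      simp only [Function.comp_apply, ell]
      exact Complex.exp_log (factor_ne_zero ha i)
    rw [h2] at h
    exact h
  have ht := hprod.tendsto_prod_nat
  by_cases ha0 : a = 0
  · subst ha0
    simp [gg, ell]
  have h1 := Complex.tendsto_euler_sin_prod a
  have h2 : Tendsto (fun n : ℕ => (Real.pi : ℂ) * a *
      ∏ j ∈ Finset.range n, (1 - a ^ 2 / ((j : ℂ) + 1) ^ 2)) atTop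
      (𝓝 ((Real.pi : ℂ) * a * Complex.exp (∑' i, ell a i))) := ht.const_mul _
  have h3 := tendsto_nhds_unique h1 h2
  have h4 := gg_zero_mul ha0 ha
  rw [h3] at h4
  have hpi : (Real.pi : ℂ) * a ≠ 0 := mul_ne_zero (by exact_mod_cast Real.pi_ne_zero) ha0
  apply mul_left_cancel₀ hpi
  rw [mul_one]
  calc _ = gg a 0 * ((Real.pi : ℂ) * a * Complex.exp (∑' i, ell a i)) := by ring
    _ = _ := h4

/-- Tail sums. -/
noncomputable def Tl (a : ℂ) (j : ℕ) : ℂ := ∑' i, ell a (i + j)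

theorem Tl_succ (a : ℂ) (j : ℕ) : Tl a j = ell a j + Tl a (j + 1) := by
  have h : Summable fun i => ell a (i + j) := (summable_nat_add_iff j).2 (summable_ell a)
  rw [Tl, h.tsum_eq_zero_add, zero_add, Tl]
  congr 1
  refine tsum_congr fun i => ?_
  congr 1
  ring

theorem gg_eq_exp {a : ℂ} (ha : |a.re| < 1) (j : ℕ) : gg a j = Complex.exp (-Tl a j) := by
  induction j with
  | zero =>
    have h := exp_tsum_ell ha
    have : Tl a 0 = ∑' i, ell a i := by simp [Tl]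
    rw [this, Complex.exp_neg]
    exact eq_inv_of_mul_eq_one_left h
  | succ j ih =>
    have h1 : 1 - a ^ 2 / ((j : ℂ) + 1) ^ 2 = Complex.exp (ell a j) :=
      (Complex.exp_log (factor_ne_zero ha j)).symm
    rw [gg_succ ha, ih, h1, ← Complex.exp_add]
    congr 1
    rw [Tl_succ a j]; ring

theorem sum_Tl (a : ℂ) (n : ℕ) : ∑ j ∈ Finset.range n, Tl a j =
    ∑ i ∈ Finset.range n, ((i : ℂ) + 1) * ell a i + n * Tl a n := by
  induction n with
  | zero => simp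
  | succ n ih =>
    rw [Finset.sum_range_succ, ih, Finset.sum_range_succ, Tl_succ a n]
    push_cast
    ring

theorem ZZ_eq {a : ℂ} (ha : |a.re| < 1) (n : ℕ) :
    Z n a * Z n (-a) = Complex.exp (-(∑ i ∈ Finset.range n, ((i : ℂ) + 1) * ell a i +
      n * Tl a n)) := by
  rw [Z, Z, ← Finset.prod_mul_distrib, ← sum_Tl, ← Finset.sum_neg_distrib, Complex.exp_sum]
  exact Finset.prod_congr rfl fun j _ => gg_eq_exp ha j

/-- The product `G(1+a) G(1-a)`, as an exponential of a series. -/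
noncomputable def Ux (a : ℂ) : ℂ := ∑' k : ℕ, ((k : ℂ) + 1) * ee a k

theorem summable_Ux (a : ℂ) : Summable fun k : ℕ => ((k : ℂ) + 1) * ee a k := by
  have h1 : Summable fun i : ℕ => ‖a‖ ^ 4 / ((i : ℝ) + 1) ^ 3 := by
    have h : Summable fun k : ℕ => 1 / (((k + 1 : ℕ) : ℝ)) ^ 3 :=
      (summable_nat_add_iff 1).2 (Real.summable_one_div_nat_pow.2 (by norm_num))
    refine (h.mul_left (‖a‖ ^ 4)).congr fun k => ?_
    push_cast
    ring
  obtain ⟨m, hm⟩ := exists_nat_ge (2 * ‖a‖ ^ 2)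
  refine Summable.of_norm_bounded_eventually_nat h1 ?_
  filter_upwards [eventually_ge_atTop m] with i hi
  have h2 : (m : ℝ) ≤ i := by exact_mod_cast hi
  have h3 : (0 : ℝ) ≤ i := i.cast_nonneg
  have h4 := norm_ee_le (a := a) (i := i) le_rfl (by nlinarith)
  have : ‖(i : ℂ) + 1‖ = (i : ℝ) + 1 := by
    have : ((i : ℂ) + 1) = (((i : ℝ) + 1 : ℝ) : ℂ) := by push_cast; rfl
    rw [this, Complex.norm_real, Real.norm_eq_abs, abs_of_pos (by positivity)]
  rw [norm_mul, this]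
  calc ((i : ℝ) + 1) * ‖ee a i‖ ≤ ((i : ℝ) + 1) * (‖a‖ ^ 4 / ((i : ℝ) + 1) ^ 4) := by gcongr
    _ = _ := by field_simp

/-- The tail errors. -/
noncomputable def tailE (a : ℂ) (n : ℕ) : ℂ := ∑' k : ℕ, ((k : ℂ) + 1) * ee a (k + n)

theorem key_identity {a : ℂ} (ha : |a.re| < 1) {n : ℕ} (hn : 0 < n) :
    Z n a * Z n (-a) * (n : ℂ) ^ (-a ^ 2) *
      (Complex.exp (-(a ^ 2 * (1 + Real.eulerMascheroniConstant))) * Complex.exp (Ux a)) =
      Complex.exp (tailE a n + a ^ 2 * ((n * qq n - 1 +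
        ((harmonic n : ℝ) - Real.log n - Real.eulerMascheroniConstant) : ℝ) : ℂ)) := by
  have hn0 : (n : ℂ) ≠ 0 := by exact_mod_cast hn.ne'
  have hsE : Summable fun k => ee a (k + n) := (summable_nat_add_iff n).2 (summable_ee a)
  have hsU : Summable fun k : ℕ => (((k + n : ℕ) : ℂ) + 1) * ee a (k + n) :=
    (summable_nat_add_iff n).2 (summable_Ux a)
  have hU : Ux a = ∑ i ∈ Finset.range n, ((i : ℂ) + 1) * ee a i +
      ∑' k : ℕ, (((k + n : ℕ) : ℂ) + 1) * ee a (k + n) :=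
    ((summable_Ux a).sum_add_tsum_nat_add n).symm
  have hq : ((qq n : ℝ) : ℂ) * a ^ 2 = ∑' k : ℕ, a ^ 2 / (((k + n : ℕ) : ℂ) + 1) ^ 2 := by
    rw [qq, Complex.ofReal_tsum, ← tsum_mul_right]
    refine tsum_congr fun k => ?_
    push_cast
    ring
  have hsq : Summable fun k : ℕ => a ^ 2 / (((k + n : ℕ) : ℂ) + 1) ^ 2 :=
    (summable_nat_add_iff n).2 (summable_sq a)
  have hT : Tl a n = ∑' k, ee a (k + n) - (qq n : ℂ) * a ^ 2 := by
    rw [hq, ← hsE.tsum_sub hsq, Tl]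
    refine tsum_congr fun k => ?_
    rw [ee]
    ring
  have htail : tailE a n = ∑' k : ℕ, (((k + n : ℕ) : ℂ) + 1) * ee a (k + n) -
      n * ∑' k, ee a (k + n) := by
    rw [← tsum_mul_left, ← hsU.tsum_sub (hsE.mul_left _), tailE]
    refine tsum_congr fun k => ?_
    push_cast
    ring
  have hh : ((harmonic n : ℝ) : ℂ) = ∑ i ∈ Finset.range n, ((i : ℂ) + 1)⁻¹ := by
    rw [harmonic]
    push_cast
    rfl
  have hsum : ∑ i ∈ Finset.range n, ((i : ℂ) + 1) * ee a i =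
      ∑ i ∈ Finset.range n, ((i : ℂ) + 1) * ell a i + a ^ 2 * ((harmonic n : ℝ) : ℂ) := by
    rw [hh, Finset.mul_sum, ← Finset.sum_add_distrib]
    refine Finset.sum_congr rfl fun i _ => ?_
    have hi : ((i : ℂ) + 1) ≠ 0 := by exact_mod_cast Nat.succ_ne_zero i
    rw [ee]
    field_simp
  rw [ZZ_eq ha, Complex.cpow_def_of_ne_zero hn0, ← Complex.exp_add, ← Complex.exp_add,
    ← Complex.exp_add]
  congr 1
  rw [hU, hT, htail, hsum, ← Complex.natCast_log]
  push_cast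
  ring

/-- The factors of the Weierstrass product. -/
noncomputable def bFac (w : ℂ) (k : ℕ) : ℂ :=
  (1 + w / ((k : ℂ) + 1)) ^ (k + 1) * Complex.exp (w ^ 2 / (2 * ((k : ℂ) + 1)) - w)

/-- The Barnes `G`-function, defined by its Weierstrass product
`G(1+w) = (2π)^{w/2} exp(-(w + (1+γ) w²)/2) ∏_{k≥1} (1+w/k)^k exp(w²/(2k) - w)`. -/
noncomputable def barnesG (s : ℂ) : ℂ :=
  (2 * Real.pi : ℂ) ^ ((s - 1) / 2) *
    Complex.exp (-((s - 1) + (1 + Real.eulerMascheroniConstant) * (s - 1) ^ 2) / 2) *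
    ∏' k : ℕ, bFac (s - 1) k

/-- The logarithm of a factor. -/
noncomputable def bLog (w : ℂ) (k : ℕ) : ℂ :=
  ((k : ℂ) + 1) * Complex.log (1 + w / ((k : ℂ) + 1)) + (w ^ 2 / (2 * ((k : ℂ) + 1)) - w)

theorem exp_bLog {w : ℂ} {k : ℕ} (h : 1 + w / ((k : ℂ) + 1) ≠ 0) :
    Complex.exp (bLog w k) = bFac w k := by
  rw [bLog, Complex.exp_add, bFac]
  congr 1
  have : ((k : ℂ) + 1) = ((k + 1 : ℕ) : ℂ) := by push_cast; rfl
  rw [this, Complex.exp_nat_mul, Complex.exp_log]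
  rw [← this]; exact h

theorem norm_bLog_le {w : ℂ} {R : ℝ} (hw : ‖w‖ ≤ R) {k : ℕ} (hk : 2 * R ≤ (k : ℝ) + 1) :
    ‖bLog w k‖ ≤ R ^ 3 / ((k : ℝ) + 1) ^ 2 := by
  have hk0 : (0 : ℝ) < (k : ℝ) + 1 := by positivity
  have hR : 0 ≤ R := (norm_nonneg w).trans hw
  have hkn : ‖(k : ℂ) + 1‖ = (k : ℝ) + 1 := by
    have : ((k : ℂ) + 1) = (((k : ℝ) + 1 : ℝ) : ℂ) := by push_cast; rfl
    rw [this, Complex.norm_real, Real.norm_eq_abs, abs_of_pos hk0]
  have hkne : (k : ℂ) + 1 ≠ 0 := by exact_mod_cast Nat.succ_ne_zero k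
  set z : ℂ := w / ((k : ℂ) + 1) with hz
  have hzn : ‖z‖ ≤ R / ((k : ℝ) + 1) := by
    rw [hz, norm_div, hkn]; gcongr
  have hhalf : R / ((k : ℝ) + 1) ≤ 1 / 2 := by
    rw [div_le_div_iff₀ hk0 (by norm_num)]; linarith
  have hlt : ‖z‖ < 1 := by linarith
  have h := Complex.norm_log_sub_logTaylor_le 2 hlt
  have hT : Complex.logTaylor (2 + 1) z = z - z ^ 2 / 2 := by
    rw [Complex.logTaylor_succ, Complex.logTaylor_succ, Complex.logTaylor_succ]
    simp [Complex.logTaylor_zero]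
    ring
  rw [hT] at h
  have he : bLog w k = ((k : ℂ) + 1) * (Complex.log (1 + z) - (z - z ^ 2 / 2)) := by
    rw [bLog, hz]
    field_simp
    ring
  rw [he, norm_mul, hkn]
  have h1 : (1 - ‖z‖)⁻¹ ≤ 2 := by
    rw [inv_le_comm₀ (by linarith) (by norm_num)]
    linarith
  have h2 : ‖z‖ ^ (2 + 1) * (1 - ‖z‖)⁻¹ / (((2 : ℕ) : ℝ) + 1) ≤ ‖z‖ ^ 3 := by
    have h3 : 0 ≤ ‖z‖ ^ 3 := by positivity
    calc ‖z‖ ^ (2 + 1) * (1 - ‖z‖)⁻¹ / (((2 : ℕ) : ℝ) + 1)
        ≤ ‖z‖ ^ 3 * 2 / (((2 : ℕ) : ℝ) + 1) := by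
          norm_num only
          gcongr
      _ ≤ ‖z‖ ^ 3 := by
          push_cast
          rw [div_le_iff₀ (by norm_num)]
          linarith
  calc ((k : ℝ) + 1) * ‖Complex.log (1 + z) - (z - z ^ 2 / 2)‖
      ≤ ((k : ℝ) + 1) * ‖z‖ ^ 3 := by
        gcongr
        exact h.trans h2
    _ ≤ ((k : ℝ) + 1) * (R / ((k : ℝ) + 1)) ^ 3 := by gcongr
    _ = _ := by
        rw [div_pow]
        field_simp

theorem summable_bLog (w : ℂ) : Summable (bLog w) := by
  have h1 : Summable fun i : ℕ => ‖w‖ ^ 3 / ((i : ℝ) + 1) ^ 2 := by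
    have h : Summable fun k : ℕ => 1 / (((k + 1 : ℕ) : ℝ)) ^ 2 :=
      (summable_nat_add_iff 1).2 (Real.summable_one_div_nat_pow.2 (by norm_num))
    refine (h.mul_left (‖w‖ ^ 3)).congr fun k => ?_
    push_cast
    ring
  obtain ⟨m, hm⟩ := exists_nat_ge (2 * ‖w‖)
  refine Summable.of_norm_bounded_eventually_nat h1 ?_
  filter_upwards [eventually_ge_atTop m] with i hi
  have h2 : (m : ℝ) ≤ i := by exact_mod_cast hi
  exact norm_bLog_le le_rfl (by linarith)

theorem one_add_div_ne {w : ℂ} (hw : -1 < w.re) (k : ℕ) : 1 + w / ((k : ℂ) + 1) ≠ 0 := by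
  have hkne : (k : ℂ) + 1 ≠ 0 := by exact_mod_cast Nat.succ_ne_zero k
  intro h
  have h1 : (k : ℂ) + 1 + w = 0 := by
    field_simp at h
    simpa using h
  have h2 := congrArg Complex.re h1
  simp at h2
  have : (0 : ℝ) ≤ k := k.cast_nonneg
  linarith

theorem hasProd_bFac {w : ℂ} (hw : -1 < w.re) :
    HasProd (bFac w) (Complex.exp (∑' k, bLog w k)) := by
  have h := (summable_bLog w).hasSum.cexp
  have h2 : (Complex.exp ∘ bLog w) = bFac w := by
    funext k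
    exact exp_bLog (one_add_div_ne hw k)
  rwa [h2] at h

theorem bFac_mul {a : ℂ} (ha : |a.re| < 1) (k : ℕ) :
    bFac a k * bFac (-a) k = Complex.exp (((k : ℂ) + 1) * ee a k) := by
  have hk : (k : ℂ) + 1 ≠ 0 := by exact_mod_cast Nat.succ_ne_zero k
  have h1 : Complex.exp (((k : ℂ) + 1) * ell a k) = (1 - a ^ 2 / ((k : ℂ) + 1) ^ 2) ^ (k + 1) := by
    have : ((k : ℂ) + 1) = ((k + 1 : ℕ) : ℂ) := by push_cast; rfl
    rw [this, Complex.exp_nat_mul, ell, Complex.exp_log]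
    · push_cast; rfl
    · exact factor_ne_zero ha k
  rw [ee, mul_add, Complex.exp_add, h1, bFac, bFac, mul_mul_mul_comm, ← mul_pow,
    ← Complex.exp_add]
  congr 2
  · field_simp
    ring
  · field_simp
    ring

theorem tprod_mul_eq {a : ℂ} (ha : |a.re| < 1) :
    (∏' k, bFac a k) * ∏' k, bFac (-a) k = Complex.exp (Ux a) := by
  have ha' := abs_lt.1 ha
  have h1 := hasProd_bFac (w := a) ha'.1
  have h2 := hasProd_bFac (w := -a) (by simp; exact ha'.2)
  have h3 := (summable_Ux a).hasSum.cexp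
  have h4 : (Complex.exp ∘ fun k : ℕ => ((k : ℂ) + 1) * ee a k) =
      fun k => bFac a k * bFac (-a) k := by
    funext k
    exact (bFac_mul ha k).symm
  rw [h4] at h3
  rw [h1.tprod_eq, h2.tprod_eq]
  exact (h1.mul h2).unique h3

theorem barnesG_mul {a : ℂ} (ha : |a.re| < 1) :
    barnesG (1 + a) * barnesG (1 + -a) =
      Complex.exp (-(a ^ 2 * (1 + Real.eulerMascheroniConstant))) * Complex.exp (Ux a) := by
  rw [barnesG, barnesG, add_sub_cancel_left, add_sub_cancel_left, ← tprod_mul_eq ha]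
  have h2pi : (2 * Real.pi : ℂ) ≠ 0 := by
    have : (Real.pi : ℂ) ≠ 0 := by exact_mod_cast Real.pi_ne_zero
    simp [this]
  have h1 : (2 * Real.pi : ℂ) ^ (a / 2) * (2 * Real.pi : ℂ) ^ (-a / 2) = 1 := by
    rw [← Complex.cpow_add _ _ h2pi]
    have : a / 2 + -a / 2 = 0 := by ring
    rw [this, Complex.cpow_zero]
  have h3 : Complex.exp (-(a + (1 + Real.eulerMascheroniConstant) * a ^ 2) / 2) *
      Complex.exp (-(-a + (1 + Real.eulerMascheroniConstant) * (-a) ^ 2) / 2) =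
      Complex.exp (-(a ^ 2 * (1 + Real.eulerMascheroniConstant))) := by
    rw [← Complex.exp_add]
    congr 1
    ring
  calc _ = ((2 * Real.pi : ℂ) ^ (a / 2) * (2 * Real.pi : ℂ) ^ (-a / 2)) *
      (Complex.exp (-(a + (1 + Real.eulerMascheroniConstant) * a ^ 2) / 2) *
      Complex.exp (-(-a + (1 + Real.eulerMascheroniConstant) * (-a) ^ 2) / 2)) *
      ((∏' k, bFac a k) * ∏' k, bFac (-a) k) := by ring
    _ = _ := by rw [h1, h3, one_mul]

theorem norm_tailE_le {a : ℂ} {R : ℝ} (ha : ‖a‖ ≤ R) {n : ℕ} (hn : 0 < n)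
    (hn2 : 2 * R ^ 2 ≤ (n : ℝ)) : ‖tailE a n‖ ≤ R ^ 4 / n := by
  have hn0 : (0 : ℝ) < n := by exact_mod_cast hn
  have hn1 : (1 : ℝ) ≤ n := by exact_mod_cast hn
  have hR : 0 ≤ R := (norm_nonneg a).trans ha
  have hterm : ∀ k : ℕ, ‖((k : ℂ) + 1) * ee a (k + n)‖ ≤ R ^ 4 * (1 / ((k : ℝ) + n + 1) ^ 2) := by
    intro k
    have hk : ‖(k : ℂ) + 1‖ = (k : ℝ) + 1 := by
      have : ((k : ℂ) + 1) = (((k : ℝ) + 1 : ℝ) : ℂ) := by push_cast; rfl
      rw [this, Complex.norm_real, Real.norm_eq_abs, abs_of_pos (by positivity)]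
    have hk0 : (0 : ℝ) ≤ k := k.cast_nonneg
    have h1 := norm_ee_le (i := k + n) ha (by push_cast; nlinarith)
    rw [norm_mul, hk]
    push_cast at h1
    have hD : (1 : ℝ) ≤ (k : ℝ) + n + 1 := by linarith
    calc ((k : ℝ) + 1) * ‖ee a (k + n)‖ ≤ ((k : ℝ) + 1) * (R ^ 4 / ((k : ℝ) + n + 1) ^ 4) := by
          gcongr
      _ ≤ ((k : ℝ) + n + 1) ^ 2 * (R ^ 4 / ((k : ℝ) + n + 1) ^ 4) := by
          gcongr
          nlinarith
      _ = _ := by field_simp
  have hs := (summable_qq n).mul_left (R ^ 4)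
  calc ‖tailE a n‖ ≤ ∑' k : ℕ, R ^ 4 * (1 / ((k : ℝ) + n + 1) ^ 2) :=
        tsum_of_norm_bounded hs.hasSum hterm
    _ = R ^ 4 * qq n := by rw [tsum_mul_left]; rfl
    _ ≤ R ^ 4 * (1 / n) := by
        have := qq_le n hn
        gcongr
    _ = _ := by ring

/-- The asymptotics of `Z n a * Z n (-a)` in terms of the Barnes function. -/
theorem barnes_asymp (R : ℝ) : TendstoUniformlyOn
    (fun (n : ℕ) (a : ℂ) => Z n a * Z n (-a) * (n : ℂ) ^ (-(a ^ 2)) *
      (barnesG (1 + a) * barnesG (1 - a))) (fun _ => 1) atTop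
    {a : ℂ | |a.re| < 1 ∧ ‖a‖ ≤ R} := by
  rw [Metric.tendstoUniformlyOn_iff]
  intro ε hε
  set δ : ℕ → ℝ := fun n => |R| ^ 4 / n + |R| ^ 2 * |n * qq n - 1 +
    ((harmonic n : ℝ) - Real.log n - Real.eulerMascheroniConstant)| with hδ
  have hδ0 : Tendsto δ atTop (𝓝 0) := by
    have h1 : Tendsto (fun n : ℕ => |R| ^ 4 / (n : ℝ)) atTop (𝓝 0) :=
      tendsto_const_div_atTop_nhds_zero_nat _
    have h2 : Tendsto (fun n : ℕ => (n : ℝ) * qq n) atTop (𝓝 1) := by
      have h3 : Tendsto (fun n : ℕ => (n : ℝ) * (1 / ((n : ℝ) + 1))) atTop (𝓝 1) := by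
        have h4 : Tendsto (fun n : ℕ => 1 - 1 / ((n : ℝ) + 1)) atTop (𝓝 (1 - 0)) :=
          tendsto_const_nhds.sub tendsto_one_div_add_atTop_nhds_zero_nat
        rw [sub_zero] at h4
        refine h4.congr fun n => ?_
        have : (n : ℝ) + 1 ≠ 0 := by positivity
        field_simp
        ring
      refine tendsto_of_tendsto_of_tendsto_of_le_of_le' h3 tendsto_const_nhds ?_ ?_
      · refine Eventually.of_forall fun n => ?_
        have := le_qq n
        gcongr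
      · filter_upwards [eventually_gt_atTop 0] with n hn
        have h0 : (0 : ℝ) < n := by exact_mod_cast hn
        calc (n : ℝ) * qq n ≤ n * (1 / n) := by gcongr; exact qq_le n hn
          _ = 1 := by field_simp
    have h5 := Real.tendsto_harmonic_sub_log
    have h6 : Tendsto (fun n : ℕ => (n : ℝ) * qq n - 1 +
        ((harmonic n : ℝ) - Real.log n - Real.eulerMascheroniConstant)) atTop (𝓝 0) := by
      have := (h2.sub_const 1).add (h5.sub_const Real.eulerMascheroniConstant)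
      simpa using this
    have h7 := h1.add ((h6.abs).const_mul (|R| ^ 2))
    rw [abs_zero, mul_zero, add_zero] at h7
    exact h7
  have hev : ∀ᶠ n in atTop, δ n < min 1 (ε / 2) :=
    hδ0.eventually (gt_mem_nhds (by positivity))
  obtain ⟨m, hm⟩ := exists_nat_ge (2 * |R| ^ 2)
  filter_upwards [hev, eventually_gt_atTop 0, eventually_ge_atTop m] with n hn hn0 hnm a ha
  obtain ⟨ha1, ha2⟩ := ha
  have ha3 : ‖a‖ ≤ |R| := ha2.trans (le_abs_self R)
  have hkey := key_identity ha1 hn0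
  rw [← barnesG_mul ha1] at hkey
  rw [sub_eq_add_neg 1 a, hkey]
  set w : ℂ := tailE a n + a ^ 2 * ((n * qq n - 1 +
        ((harmonic n : ℝ) - Real.log n - Real.eulerMascheroniConstant) : ℝ) : ℂ) with hw
  have hwn : ‖w‖ ≤ δ n := by
    rw [hw, hδ]
    refine (norm_add_le _ _).trans (add_le_add ?_ ?_)
    · refine norm_tailE_le ha3 hn0 (hm.trans ?_)
      exact_mod_cast hnm
    · rw [norm_mul, norm_pow, Complex.norm_real, Real.norm_eq_abs]
      gcongr
  have hw1 : ‖w‖ ≤ 1 := (hwn.trans hn.le).trans (min_le_left _ _)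
  rw [dist_comm, dist_eq_norm]
  have h8 := Complex.norm_exp_sub_one_le hw1
  have h9 : δ n < ε / 2 := hn.trans_le (min_le_right _ _)
  linarith

end Sph
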